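import Pool.Agent.KTK.Stmts2

/-!
# KTK part 2, row SMB: summability along fast sequences
-/

set_option autoImplicit false

namespace Pool.Agent.KTK.H62

open Pool.Agent.PRT Pool.Agent.KTK
open scoped ContDiff

theorem fast_step (C : ℝ) (hC : 0 ≤ C) (m n : ℕ) (hm : 4 * (C + 3) + 1 ≤ m)
    (h : Real.exp ((m : ℝ) ^ 2) / 2 ≤ ((n : ℝ) + 1) ^ 4) :
    Real.exp (C * m) + 2 * m ≤ n := by
  by_contra hcon
  rw [not_le] at hcon
  have hm1 : (1 : ℝ) ≤ m := by linarith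
  have h1 : (n : ℝ) + 1 ≤ Real.exp ((C + 3) * m) := by
    have h2 : (1 : ℝ) ≤ Real.exp (C * m) := Real.one_le_exp (by positivity)
    have h3 : (n : ℝ) + 1 ≤ Real.exp (C * m) * (2 * m + 2) := by nlinarith
    have h4 : 2 * (m : ℝ) + 2 ≤ Real.exp (2 * m + 1) := by
      have := Real.add_one_le_exp (2 * (m : ℝ) + 1)
      linarith
    have h5 : Real.exp (2 * (m : ℝ) + 1) ≤ Real.exp (3 * m) := Real.exp_le_exp.mpr (by linarith)
    have h6 : Real.exp ((C + 3) * m) = Real.exp (C * m) * Real.exp (3 * m) := by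
      rw [← Real.exp_add]
      ring_nf
    rw [h6]
    exact h3.trans (mul_le_mul_of_nonneg_left (h4.trans h5) (Real.exp_pos _).le)
  have h2 : ((n : ℝ) + 1) ^ 4 ≤ Real.exp (4 * ((C + 3) * m)) := by
    have h3 : Real.exp (4 * ((C + 3) * m)) = Real.exp ((C + 3) * m) ^ 4 := by
      rw [← Real.exp_nat_mul]
      norm_num
    rw [h3]
    exact pow_le_pow_left₀ (by positivity) h1 4
  have h3 : Real.exp ((m : ℝ) ^ 2) ≤ Real.exp (4 * ((C + 3) * m) + 1) := by
    have h4 : (2 : ℝ) ≤ Real.exp 1 := by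
      have := Real.add_one_le_exp (1 : ℝ)
      linarith
    rw [Real.exp_add]
    have h5 := Real.exp_pos (4 * ((C + 3) * m))
    nlinarith
  rw [Real.exp_le_exp] at h3
  have h4 : (4 * (C + 3) + 1) * (m : ℝ) ≤ (m : ℝ) ^ 2 := by nlinarith
  have h5 : ¬ (1 : ℝ) < m := by
    intro h6
    nlinarith
  nlinarith

theorem sub_mul (b : ℕ → ℝ) (hmono : Monotone b) (hsub : ∀ m n : ℕ, b (m + n) ≤ b m + b n)
    (m v : ℕ) (hv : v ≤ m) (u : ℕ) : b (u * m + v) ≤ ((u : ℝ) + 1) * b m := by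
  induction u with
  | zero =>
    rw [Nat.zero_mul, Nat.zero_add, Nat.cast_zero, zero_add, one_mul]
    exact hmono hv
  | succ u ih =>
    have h1 : (u + 1) * m + v = m + (u * m + v) := by ring
    rw [h1]
    have h2 := hsub m (u * m + v)
    push_cast
    linarith

theorem smb : SmbStmt := by
  intro b η C hmono hb0 hsub hη hη1 hC hyp B hB hB1 hBe
  obtain ⟨m, hm⟩ : ∃ m : ℕ → ℕ, ∀ j, m j = Nat.sqrt (Nat.sqrt (B j)) := ⟨_, fun _ => rfl⟩
  obtain ⟨M₀, hM₀⟩ := exists_nat_ge (4 * (C + 3) + 1)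
  have hM1 : 1 ≤ M₀ := by
    have h : (1 : ℝ) ≤ M₀ := by linarith
    exact_mod_cast h
  obtain ⟨j₀, hj₀⟩ : ∃ j₀ : ℕ, j₀ = (M₀ * M₀) * (M₀ * M₀) := ⟨_, rfl⟩
  have hmM : ∀ j, j₀ ≤ j → M₀ ≤ m j := by
    intro j hj
    rw [hm, Nat.le_sqrt, Nat.le_sqrt, ← hj₀]
    exact hj.trans hB.le_apply
  have hm4 : ∀ j, ((m j : ℝ)) ^ 2 ≤ Real.sqrt (B j) := by
    intro j
    apply Real.le_sqrt_of_sq_le
    have h1 : m j * m j ≤ Nat.sqrt (B j) := by
      rw [← Nat.le_sqrt, hm]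
    have h2 : (m j * m j) * (m j * m j) ≤ B j := by
      rw [← Nat.le_sqrt]
      exact h1
    have h3 : (((m j * m j) * (m j * m j) : ℕ) : ℝ) ≤ (B j : ℝ) := by exact_mod_cast h2
    push_cast at h3
    calc ((m j : ℝ) ^ 2) ^ 2 = (m j : ℝ) * m j * (m j * m j) := by ring
      _ ≤ _ := h3
  have hm5 : ∀ j, (B j : ℝ) ≤ ((m j : ℝ) + 1) ^ 4 := by
    intro j
    have h1 : B j < (Nat.sqrt (B j) + 1) * (Nat.sqrt (B j) + 1) := Nat.lt_succ_sqrt _
    have h2 : Nat.sqrt (B j) < (m j + 1) * (m j + 1) := by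
      rw [hm]
      exact Nat.lt_succ_sqrt _
    have h3 : Nat.sqrt (B j) + 1 ≤ (m j + 1) * (m j + 1) := h2
    have h4 : B j ≤ ((m j + 1) * (m j + 1)) * ((m j + 1) * (m j + 1)) :=
      h1.le.trans (Nat.mul_le_mul h3 h3)
    have h5 : (B j : ℝ) ≤ ((((m j + 1) * (m j + 1)) * ((m j + 1) * (m j + 1)) : ℕ) : ℝ) := by
      exact_mod_cast h4
    push_cast at h5
    calc (B j : ℝ) ≤ _ := h5
      _ = ((m j : ℝ) + 1) ^ 4 := by ring
  have hstep : ∀ j, j₀ ≤ j → Real.exp (C * m j) + 2 * m j ≤ m (j + 1) := by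
    intro j hj
    refine fast_step C hC (m j) (m (j + 1)) ?_ ?_
    · have h1 : (M₀ : ℝ) ≤ m j := by exact_mod_cast hmM j hj
      linarith
    · refine le_trans ?_ ((hBe j).trans (hm5 (j + 1)))
      have := Real.exp_le_exp.mpr (hm4 j)
      linarith
  -- the sequence k
  obtain ⟨K, hK⟩ : ∃ K : ℕ → ℝ, ∀ i, K i = b (m (j₀ + i)) / m (j₀ + i) := ⟨_, fun _ => rfl⟩
  have hK0 : ∀ i, 0 ≤ K i := by
    intro i
    rw [hK]
    exact div_nonneg (hb0 _) (Nat.cast_nonneg _)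
  have hm2 : ∀ i, (2 : ℝ) ^ i ≤ m (j₀ + i) := by
    intro i
    induction i with
    | zero =>
      rw [pow_zero, Nat.add_zero]
      exact_mod_cast hM1.trans (hmM j₀ le_rfl)
    | succ i ih =>
      have h1 := hstep (j₀ + i) (Nat.le_add_right _ _)
      have h2 := Real.exp_pos (C * m (j₀ + i))
      rw [pow_succ]
      rw [← Nat.add_assoc]
      linarith
  have hKs : ∀ i, K (i + 1) ≤ (1 - η) * K i + C * (1 / 2) ^ i := by
    intro i
    have h1 := hstep (j₀ + i) (Nat.le_add_right _ _)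
    have h2 : (0 : ℝ) ≤ m (j₀ + i) := Nat.cast_nonneg _
    have h3 := hyp (m (j₀ + i)) (m (j₀ + i + 1))
      (hM1.trans (hmM _ (Nat.le_add_right _ _))) (by linarith)
    have h4 : C / (m (j₀ + i) : ℝ) ≤ C * (1 / 2) ^ i := by
      rw [one_div, inv_pow, div_eq_mul_inv]
      exact mul_le_mul_of_nonneg_left (inv_anti₀ (by positivity) (hm2 i)) hC
    rw [hK, hK, ← Nat.add_assoc]
    linarith
  have hgeo : ∀ N : ℕ, ∑ i ∈ Finset.range N, C * (1 / 2 : ℝ) ^ i ≤ 2 * C := by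
    intro N
    rw [← Finset.mul_sum]
    have h1 : ∑ i ∈ Finset.range N, (1 / 2 : ℝ) ^ i ≤ 2 := sum_geometric_two_le N
    nlinarith
  have hKsum : ∀ N : ℕ, ∑ i ∈ Finset.range N, K i ≤ (K 0 + 2 * C) / η := by
    intro N
    induction N with
    | zero =>
      rw [Finset.sum_range_zero]
      exact div_nonneg (by linarith [hK0 0]) hη.le
    | succ N ih =>
      rw [Finset.sum_range_succ']
      have h1 : ∑ i ∈ Finset.range N, K (i + 1) ≤
          (1 - η) * ∑ i ∈ Finset.range N, K i + 2 * C := by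
        refine (Finset.sum_le_sum fun i _ => hKs i).trans ?_
        rw [Finset.sum_add_distrib, ← Finset.mul_sum]
        linarith [hgeo N]
      have h2 : (1 - η) * ∑ i ∈ Finset.range N, K i ≤ (1 - η) * ((K 0 + 2 * C) / η) :=
        mul_le_mul_of_nonneg_left ih (by linarith)
      have h3 : (1 - η) * ((K 0 + 2 * C) / η) + (K 0 + 2 * C) = (K 0 + 2 * C) / η := by
        field_simp
        ring
      linarith
  have hKsm : Summable K := summable_of_sum_range_le hK0 hKsum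
  rw [← summable_nat_add_iff j₀]
  refine Summable.of_nonneg_of_le (fun i => div_nonneg (hb0 _) (Nat.cast_nonneg _)) (fun i => ?_)
    (hKsm.mul_left 2)
  rw [hK, Nat.add_comm i j₀]
  obtain ⟨j, hj⟩ : ∃ j, j = j₀ + i := ⟨_, rfl⟩
  rw [← hj]
  have hmj : 1 ≤ m j := hM1.trans (hmM j (by omega))
  have hmB : m j ≤ B j := by
    rw [hm]
    exact (Nat.sqrt_le_self _).trans (Nat.sqrt_le_self _)
  have h1 := sub_mul b hmono hsub (m j) (B j % m j) (Nat.mod_lt _ hmj).le (B j / m j)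
  have h2 : B j / m j * m j + B j % m j = B j := by
    rw [Nat.mul_comm]
    exact Nat.div_add_mod _ _
  rw [h2] at h1
  have hmj0 : (0 : ℝ) < m j := by exact_mod_cast hmj
  have hBj0 : (0 : ℝ) < B j := by exact_mod_cast hB1 j
  have h3 : ((B j / m j : ℕ) : ℝ) * m j ≤ B j := by
    exact_mod_cast Nat.div_mul_le_self (B j) (m j)
  have h4 : (m j : ℝ) ≤ B j := by exact_mod_cast hmB
  rw [div_le_iff₀ hBj0]
  refine h1.trans ?_
  have h5 : (((B j / m j : ℕ) : ℝ) + 1) * m j ≤ 2 * B j := by linarith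
  have h6 : 2 * (b (m j) / m j) * B j = b (m j) * (2 * B j) / m j := by ring
  rw [h6, le_div_iff₀ hmj0]
  have h7 := mul_le_mul_of_nonneg_left h5 (hb0 (m j))
  linarith

end Pool.Agent.KTK.H62
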