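import Pool.Agent.KTK.Stmts

/-!
# KTK, row PIG: pigeonhole principle
-/

set_option autoImplicit false

namespace Pool.Agent.KTK.H62

open Pool.Agent.PRT Pool.Agent.KTK
open scoped ContDiff

theorem pig : PigStmt := by
  classical
  intro ρ hρ
  obtain ⟨S, hS⟩ : ∃ S : Set (E × E × E), S =
      (Set.Icc (0 : ℝ) 1 ×ˢ Set.Icc (0 : ℝ) 1) ×ˢ
        (Metric.closedBall (0 : E) 1 ×ˢ Metric.closedBall (0 : E) 1) := ⟨_, rfl⟩
  have hSc : IsCompact S := by
    rw [hS]
    exact (isCompact_Icc.prod isCompact_Icc).prod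
      ((isCompact_closedBall _ _).prod (isCompact_closedBall _ _))
  obtain ⟨t, htf, htS⟩ := Metric.totallyBounded_iff.mp hSc.totallyBounded (ρ / 2) (by positivity)
  refine ⟨htf.toFinset.card + 1, ?_⟩
  intro T x e f hT hef
  obtain ⟨p, hp⟩ : ∃ p : ℕ → E × E × E, ∀ i,
      p i = ((Int.fract (x i).1, Int.fract (x i).2), e i, f i) := ⟨_, fun _ => rfl⟩
  have hpS : ∀ i ∈ T, p i ∈ S := by
    intro i hi
    rw [hp, hS]
    obtain ⟨h1, h2⟩ := hef i hi
    refine ⟨⟨⟨Int.fract_nonneg _, (Int.fract_lt_one _).le⟩,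
      ⟨Int.fract_nonneg _, (Int.fract_lt_one _).le⟩⟩, ?_, ?_⟩
    · rw [mem_closedBall_zero_iff]
      exact h1.le
    · rw [mem_closedBall_zero_iff]
      exact h2.le
  have hcen : ∀ i ∈ T, ∃ c ∈ t, dist (p i) c < ρ / 2 := by
    intro i hi
    have h := htS (hpS i hi)
    rw [Set.mem_iUnion₂] at h
    obtain ⟨c, hc, hc2⟩ := h
    exact ⟨c, hc, hc2⟩
  obtain ⟨c, hc⟩ : ∃ c : ℕ → E × E × E, ∀ i ∈ T, c i ∈ t ∧ dist (p i) (c i) < ρ / 2 := by
    refine ⟨fun i => if h : i ∈ T then (hcen i h).choose else 0, fun i hi => ?_⟩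
    simp only [dif_pos hi]
    exact (hcen i hi).choose_spec
  obtain ⟨j, hj, j', hj', hne, hcc⟩ := Finset.exists_ne_map_eq_of_card_lt_of_maps_to
    (s := T) (t := htf.toFinset) (f := c) (by omega)
    (fun i hi => by
      rw [Finset.mem_coe, Set.Finite.mem_toFinset]
      exact (hc i hi).1)
  have key : ∀ j ∈ T, ∀ j' ∈ T, c j = c j' → (∃ a b : ℤ, ‖x j' - x j - iv a b‖ ≤ ρ) ∧
      ‖e j' - e j‖ ≤ ρ ∧ ‖f j' - f j‖ ≤ ρ := by
    intro j hj j' hj' hcc
    have h1 := (hc j hj).2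
    have h2 := (hc j' hj').2
    have h3 : dist (p j') (p j) ≤ ρ := by
      have h4 := dist_triangle (p j') (c j') (p j)
      rw [dist_comm (c j') (p j), ← hcc] at h4
      rw [← hcc] at h2
      linarith
    rw [hp, hp, Prod.dist_eq, Prod.dist_eq] at h3
    have g1 := (le_max_left _ _).trans h3
    have g2 := (le_max_left _ _).trans ((le_max_right _ _).trans h3)
    have g3 := (le_max_right _ _).trans ((le_max_right _ _).trans h3)
    refine ⟨⟨⌊(x j').1⌋ - ⌊(x j).1⌋, ⌊(x j').2⌋ - ⌊(x j).2⌋, ?_⟩, ?_, ?_⟩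
    · have e1 : x j' - x j - iv (⌊(x j').1⌋ - ⌊(x j).1⌋) (⌊(x j').2⌋ - ⌊(x j).2⌋) =
          ((Int.fract (x j').1, Int.fract (x j').2) : E) -
            (Int.fract (x j).1, Int.fract (x j).2) := by
        unfold iv
        ext
        · simp only [Prod.fst_sub, Int.fract]
          push_cast
          ring
        · simp only [Prod.snd_sub, Int.fract]
          push_cast
          ring
      rw [e1, ← dist_eq_norm]
      exact g1
    · rw [← dist_eq_norm]
      exact g2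
    · rw [← dist_eq_norm]
      exact g3
  rcases lt_or_gt_of_ne hne with h | h
  · exact ⟨j, hj, j', hj', h, key j hj j' hj' hcc⟩
  · exact ⟨j', hj', j, hj, h, key j' hj' j hj hcc.symm⟩

end Pool.Agent.KTK.H62
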