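import Pool.Agent.KTK.Stmts

/-!
# KTK, row SGM: the two fields of directions along an orbit
-/

set_option autoImplicit false

namespace Pool.Agent.KTK.H62

open Pool.Agent.PRT Pool.Agent.KTK
open scoped ContDiff

theorem dec (M : E →L[ℝ] E) (u : E) : M u = u.1 • M (1, 0) + u.2 • M (0, 1) := by
  rw [← map_smul, ← map_smul, ← map_add]
  congr 1
  ext <;> simp

theorem opn (M : E →L[ℝ] E) : ‖M‖ ≤ 2 * max ‖M (1, 0)‖ ‖M (0, 1)‖ := by
  refine M.opNorm_le_bound (by positivity) fun u => ?_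
  rw [dec M u]
  have h1 : |u.1| ≤ ‖u‖ := norm_fst_le u
  have h2 : |u.2| ≤ ‖u‖ := norm_snd_le u
  refine (norm_add_le _ _).trans ?_
  rw [norm_smul, norm_smul, Real.norm_eq_abs, Real.norm_eq_abs]
  have h3 : |u.1| * ‖M (1, 0)‖ ≤ ‖u‖ * max ‖M (1, 0)‖ ‖M (0, 1)‖ :=
    mul_le_mul h1 (le_max_left _ _) (norm_nonneg _) (norm_nonneg _)
  have h4 : |u.2| * ‖M (0, 1)‖ ≤ ‖u‖ * max ‖M (1, 0)‖ ‖M (0, 1)‖ :=
    mul_le_mul h2 (le_max_right _ _) (norm_nonneg _) (norm_nonneg _)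
  linarith

theorem nrm_e1 : ‖((1, 0) : E)‖ = 1 := by
  rw [Prod.norm_def]
  simp

theorem nrm_e2 : ‖((0, 1) : E)‖ = 1 := by
  rw [Prod.norm_def]
  simp

theorem dir_v (M : E →L[ℝ] E) :
    ∃ v : E, (v = (1, 0) ∨ v = (0, 1)) ∧ ‖M‖ / 2 ≤ ‖M v‖ := by
  have h := opn M
  rcases le_total ‖M (1, 0)‖ ‖M (0, 1)‖ with h1 | h1
  · rw [max_eq_right h1] at h
    exact ⟨(0, 1), Or.inr rfl, by linarith⟩
  · rw [max_eq_left h1] at h
    exact ⟨(1, 0), Or.inl rfl, by linarith⟩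

theorem inv_pt (M : E →L[ℝ] E) (h : cr (M (1, 0)) (M (0, 1)) = 1) (u : E) :
    M (cr u (M (0, 1)), cr (M (1, 0)) u) = u := by
  rw [dec M]
  unfold cr at h ⊢
  ext
  · simp only [Prod.fst_add, Prod.smul_fst, smul_eq_mul]
    linear_combination u.1 * h
  · simp only [Prod.snd_add, Prod.smul_snd, smul_eq_mul]
    linear_combination u.2 * h

theorem dir_w (M : E →L[ℝ] E) (h : cr (M (1, 0)) (M (0, 1)) = 1) :
    ∃ w : E, ‖M w‖ = 1 ∧ ‖M‖ / 2 ≤ ‖w‖ := by
  have ho := opn M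
  have h1 := inv_pt M h (1, 0)
  have h2 := inv_pt M h (0, 1)
  obtain ⟨w1, hw1⟩ : ∃ w1 : E, w1 = (cr (1, 0) (M (0, 1)), cr (M (1, 0)) (1, 0)) := ⟨_, rfl⟩
  obtain ⟨w2, hw2⟩ : ∃ w2 : E, w2 = (cr (0, 1) (M (0, 1)), cr (M (1, 0)) (0, 1)) := ⟨_, rfl⟩
  rw [← hw1] at h1
  rw [← hw2] at h2
  have a1 : |(M (0, 1)).2| ≤ ‖w1‖ := by
    have h3 : |w1.1| ≤ ‖w1‖ := norm_fst_le w1
    rw [hw1] at h3 ⊢
    simpa [cr] using h3
  have a2 : |(M (1, 0)).2| ≤ ‖w1‖ := by
    have h3 : |w1.2| ≤ ‖w1‖ := norm_snd_le w1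
    rw [hw1] at h3 ⊢
    simpa [cr] using h3
  have a3 : |(M (0, 1)).1| ≤ ‖w2‖ := by
    have h3 : |w2.1| ≤ ‖w2‖ := norm_fst_le w2
    rw [hw2] at h3 ⊢
    simpa [cr] using h3
  have a4 : |(M (1, 0)).1| ≤ ‖w2‖ := by
    have h3 : |w2.2| ≤ ‖w2‖ := norm_snd_le w2
    rw [hw2] at h3 ⊢
    simpa [cr] using h3
  have b1 : ‖M (1, 0)‖ ≤ max ‖w1‖ ‖w2‖ := by
    rw [Prod.norm_def, Real.norm_eq_abs, Real.norm_eq_abs]
    exact max_le (a4.trans (le_max_right _ _)) (a2.trans (le_max_left _ _))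
  have b2 : ‖M (0, 1)‖ ≤ max ‖w1‖ ‖w2‖ := by
    rw [Prod.norm_def, Real.norm_eq_abs, Real.norm_eq_abs]
    exact max_le (a3.trans (le_max_right _ _)) (a1.trans (le_max_left _ _))
  have b3 : ‖M‖ ≤ 2 * max ‖w1‖ ‖w2‖ := by
    have := max_le b1 b2
    linarith
  rcases le_total ‖w1‖ ‖w2‖ with h3 | h3
  · rw [max_eq_right h3] at b3
    exact ⟨w2, by rw [h2, nrm_e2], by linarith⟩
  · rw [max_eq_left h3] at b3
    exact ⟨w1, by rw [h1, nrm_e1], by linarith⟩

theorem inv_bd (B : E →L[ℝ] E) (h : B.det = 1) (u : E) : ‖u‖ ≤ 2 * ‖B‖ * ‖B u‖ := by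
  have e1 : u.1 = cr (B u) (B (0, 1)) := by
    rw [cr_map, h]
    simp [cr]
  have e2 : u.2 = cr (B (1, 0)) (B u) := by
    rw [cr_map, h]
    simp [cr]
  have n1 : ‖B (0, 1)‖ ≤ ‖B‖ := by
    have := B.le_opNorm (0, 1)
    rwa [nrm_e2, mul_one] at this
  have n2 : ‖B (1, 0)‖ ≤ ‖B‖ := by
    have := B.le_opNorm (1, 0)
    rwa [nrm_e1, mul_one] at this
  have h0 : 0 ≤ ‖B u‖ := norm_nonneg _
  rw [Prod.norm_def, Real.norm_eq_abs, Real.norm_eq_abs, e1, e2]
  refine max_le ?_ ?_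
  · refine (abs_cr_le _ _).trans ?_
    nlinarith
  · refine (abs_cr_le _ _).trans ?_
    nlinarith

theorem sgm : SgmStmt := by
  intro g A D N z hg hD hA hN hM
  obtain ⟨M, hMd⟩ : ∃ M : ℕ → E →L[ℝ] E, ∀ i, M i = fderiv ℝ (g^[i]) z := ⟨_, fun _ => rfl⟩
  have hgd : Differentiable ℝ g := hg.sm.differentiable (by simp)
  have hMs : ∀ i, M (i + 1) = (fderiv ℝ g (g^[i] z)).comp (M i) := by
    intro i
    rw [hMd, hMd, Function.iterate_succ']
    exact fderiv_comp z (hgd _) ((hgd.iterate i) _)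
  have hM0 : M 0 = ContinuousLinearMap.id ℝ E := by
    rw [hMd, Function.iterate_zero]
    exact fderiv_id
  have hcrM : ∀ i (a b : E), cr (M i a) (M i b) = cr a b := by
    intro i
    induction i with
    | zero => intro a b; rw [hM0]; rfl
    | succ i ih =>
      intro a b
      rw [hMs]
      have h1 := cr_map (fderiv ℝ g (g^[i] z)) (M i a) (M i b)
      rw [hg.det, one_mul, ih] at h1
      exact h1
  have hMN : Real.exp (A * N) ≤ ‖M N‖ := by
    rw [hMd]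
    exact hM
  have hdetN : cr (M N (1, 0)) (M N (0, 1)) = 1 := by
    rw [hcrM]
    simp [cr]
  obtain ⟨v, hv, hMv⟩ := dir_v (M N)
  obtain ⟨w, hw1, hMw⟩ := dir_w (M N) hdetN
  have hvn : ‖v‖ = 1 := by
    rcases hv with h | h <;> rw [h]
    · exact nrm_e1
    · exact nrm_e2
  have hAN : 1 ≤ A * N := by
    have h1 : (1 : ℝ) ≤ N := by exact_mod_cast hN
    nlinarith
  have hexp : 2 < Real.exp (A * N) := by
    have h1 := Real.add_one_lt_exp (show (A * N : ℝ) ≠ 0 by linarith)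
    linarith
  have hmv : Real.exp (A * N) / 2 ≤ ‖M N v‖ := by linarith
  have hwn : Real.exp (A * N) / 2 ≤ ‖w‖ := by linarith
  -- the directions are independent
  have hcr : cr v w ≠ 0 := by
    intro h0
    have h1 : ∃ t : ℝ, w = t • v := by
      rcases hv with h | h
      · refine ⟨w.1, ?_⟩
        rw [h] at h0 ⊢
        simp only [cr, one_mul, zero_mul, sub_zero] at h0
        ext
        · simp
        · simp [h0]
      · refine ⟨w.2, ?_⟩
        rw [h] at h0 ⊢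
        simp only [cr, one_mul, zero_mul, zero_sub, neg_eq_zero] at h0
        ext
        · simp [h0]
        · simp
    obtain ⟨t, ht⟩ := h1
    have h2 : ‖w‖ = |t| := by
      rw [ht, norm_smul, hvn, mul_one, Real.norm_eq_abs]
    have h3 : |t| * ‖M N v‖ = 1 := by
      rw [← Real.norm_eq_abs, ← norm_smul, ← map_smul, ← ht, hw1]
    rw [← h2] at h3
    have h4 : Real.exp (A * N) / 2 * (Real.exp (A * N) / 2) ≤ ‖w‖ * ‖M N v‖ :=
      mul_le_mul hwn hmv (by positivity) (norm_nonneg _)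
    nlinarith
  have hvi : ∀ i, cr (M i v) (M i w) ≠ 0 := by
    intro i
    rw [hcrM]
    exact hcr
  have hvp : ∀ i, 0 < ‖M i v‖ := by
    intro i
    rw [norm_pos_iff]
    intro h
    apply hvi i
    rw [h]
    simp [cr]
  have hwp : ∀ i, 0 < ‖M i w‖ := by
    intro i
    rw [norm_pos_iff]
    intro h
    apply hvi i
    rw [h]
    simp [cr]
  have hstep : ∀ i (u : E), M (i + 1) u = fderiv ℝ g (g^[i] z) (M i u) := by
    intro i u
    rw [hMs]
    rfl
  have hgen : ∀ (u : E), (∀ i, 0 < ‖M i u‖) → ∀ i,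
      fderiv ℝ g (g^[i] z) (‖M i u‖⁻¹ • M i u) =
        (‖M (i + 1) u‖ / ‖M i u‖) • (‖M (i + 1) u‖⁻¹ • M (i + 1) u) := by
    intro u hu i
    rw [map_smul, ← hstep, smul_smul]
    congr 1
    have h1 := (hu (i + 1)).ne'
    field_simp
  have hnrm : ∀ (u : E), (∀ i, 0 < ‖M i u‖) → ∀ i, ‖‖M i u‖⁻¹ • M i u‖ = 1 := by
    intro u hu i
    rw [norm_smul, norm_inv, norm_norm, inv_mul_cancel₀ (hu i).ne']
  have hsum : ∀ (u : E), (∀ i, 0 < ‖M i u‖) →
      ∑ i ∈ Finset.range N, Real.log (‖M (i + 1) u‖ / ‖M i u‖) =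
        Real.log ‖M N u‖ - Real.log ‖M 0 u‖ := by
    intro u hu
    rw [← Finset.sum_range_sub (fun i => Real.log ‖M i u‖)]
    refine Finset.sum_congr rfl fun i _ => ?_
    rw [Real.log_div (hu _).ne' (hu _).ne']
  refine ⟨fun i => g^[i] z, fun i => ‖M i v‖⁻¹ • M i v, fun i => ‖M i w‖⁻¹ • M i w,
    fun i => ‖M (i + 1) v‖ / ‖M i v‖, fun i => ‖M (i + 1) w‖ / ‖M i w‖, ?_, ?_⟩
  · refine ⟨fun i _ => ?_, fun i _ => hnrm v hvp i, fun i _ => hnrm w hwp i,
      fun i _ => hgen v hvp i, fun i _ => hgen w hwp i, fun i _ => div_pos (hvp _) (hvp _),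
      fun i _ => div_pos (hwp _) (hwp _), fun i _ => ?_, fun i _ => ?_, fun i _ => ?_⟩
    · exact Function.iterate_succ_apply' g i z
    · rw [Real.log_le_iff_le_exp (div_pos (hvp _) (hvp _)), div_le_iff₀ (hvp i), hstep]
      refine ((fderiv ℝ g (g^[i] z)).le_opNorm _).trans ?_
      refine mul_le_mul_of_nonneg_right ?_ (norm_nonneg _)
      have := hD (g^[i] z)
      have := Real.exp_pos D
      linarith
    · rw [Real.le_log_iff_exp_le (div_pos (hwp _) (hwp _)), le_div_iff₀ (hwp i), Real.exp_neg,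
        inv_mul_le_iff₀ (Real.exp_pos D)]
      refine (inv_bd (fderiv ℝ g (g^[i] z)) (hg.det _) (M i w)).trans ?_
      rw [← hstep]
      refine mul_le_mul_of_nonneg_right ?_ (norm_nonneg _)
      have := hD (g^[i] z)
      linarith
    · rw [cr_smul_left, cr_smul_right]
      have h1 := (hvp i).ne'
      have h2 := (hwp i).ne'
      exact mul_ne_zero (inv_ne_zero h1) (mul_ne_zero (inv_ne_zero h2) (hvi i))
  · have h0 : ∀ u : E, M 0 u = u := fun u => by rw [hM0]; rfl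
    have e1 := hsum v hvp
    have e2 := hsum w hwp
    rw [h0, hvn, Real.log_one, sub_zero] at e1
    rw [h0, hw1, Real.log_one, zero_sub] at e2
    unfold df
    rw [Finset.sum_add_distrib, Finset.sum_sub_distrib, e1, e2, Finset.sum_const,
      Finset.card_range, nsmul_eq_mul]
    have l1 : A * N - Real.log 2 ≤ Real.log ‖M N v‖ := by
      have h1 := Real.log_le_log (by positivity) hmv
      rwa [Real.log_div (Real.exp_pos _).ne' (by norm_num), Real.log_exp] at h1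
    have l2 : A * N - Real.log 2 ≤ Real.log ‖w‖ := by
      have h1 := Real.log_le_log (by positivity) hwn
      rwa [Real.log_div (Real.exp_pos _).ne' (by norm_num), Real.log_exp] at h1
    have l3 : Real.log 2 ≤ 2 := by
      have := Real.log_two_lt_d9
      linarith
    nlinarith

end Pool.Agent.KTK.H62
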